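import Mathlib
import Pool.Agent.H759R2.Kad.Props

open scoped ComplexOrder InnerProductSpace ComplexConjugate
open Finset

noncomputable section

namespace H759R2.Kad

universe u v

theorem prove_gt (h : St_gtsa.{u, v}) : St_gt.{u, v} := by
  intro B _ _ _ K _ _ _ T M hM hT κ _ x
  set a : κ → B := fun k => (realPart (x k) : B) with ha
  set b : κ → B := fun k => (imaginaryPart (x k) : B) with hb
  have hx : ∀ k, x k = a k + Complex.I • b k := fun k =>
    (realPart_add_I_smul_imaginaryPart (x k)).symm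
  have hasa : ∀ k, IsSelfAdjoint (a k) := fun k => (realPart (x k)).2
  have hbsa : ∀ k, IsSelfAdjoint (b k) := fun k => (imaginaryPart (x k)).2
  have hsq : ∀ k, a k ^ 2 + b k ^ 2 =
      (1 / 2 : ℝ) • (star (x k) * x k + x k * star (x k)) := by
    intro k
    rw [star_mul_self_add_self_mul_star (x k)]
    rw [← Nat.cast_smul_eq_nsmul ℝ, smul_smul]
    norm_num
    simp only [ha, hb, sq]
  -- the family
  let e := Fintype.equivFin (κ ⊕ κ)
  let y : Fin (Fintype.card (κ ⊕ κ)) → B := fun j => Sum.elim a b (e.symm j)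
  have hy : ∀ j, IsSelfAdjoint (y j) := by
    intro j
    show IsSelfAdjoint (Sum.elim a b (e.symm j))
    rcases e.symm j with k | k
    · exact hasa k
    · exact hbsa k
  have key := h B K T M hM hT _ y hy
  have s1 : ∑ j, ‖T (y j)‖ ^ 2 = ∑ k, (‖T (a k)‖ ^ 2 + ‖T (b k)‖ ^ 2) := by
    rw [Finset.sum_add_distrib, ← Equiv.sum_comp e, Fintype.sum_sum_type]
    simp [y]
  have s2 : ∑ j, y j ^ 2 = ∑ k, (a k ^ 2 + b k ^ 2) := by
    rw [Finset.sum_add_distrib, ← Equiv.sum_comp e, Fintype.sum_sum_type]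
    simp [y]
  rw [s1, s2] at key
  simp_rw [hsq] at key
  have s3 : ∑ k, (1 / 2 : ℝ) • (star (x k) * x k + x k * star (x k)) =
      (1 / 2 : ℝ) • (∑ k, star (x k) * x k + ∑ k, x k * star (x k)) := by
    rw [← Finset.smul_sum, Finset.sum_add_distrib]
  rw [s3, norm_smul] at key
  have hn : ‖∑ k, star (x k) * x k + ∑ k, x k * star (x k)‖ ≤
      ‖∑ k, star (x k) * x k‖ + ‖∑ k, x k * star (x k)‖ := norm_add_le _ _
  have hk : ∀ k, ‖T (x k)‖ ^ 2 ≤ 2 * (‖T (a k)‖ ^ 2 + ‖T (b k)‖ ^ 2) := by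
    intro k
    have h1 : ‖T (x k)‖ ≤ ‖T (a k)‖ + ‖T (b k)‖ := by
      conv_lhs => rw [hx k]
      rw [map_add, map_smul]
      refine (norm_add_le _ _).trans ?_
      rw [norm_smul, Complex.norm_I, one_mul]
    have h0 : 0 ≤ ‖T (x k)‖ := norm_nonneg _
    nlinarith [sq_nonneg (‖T (a k)‖ - ‖T (b k)‖), norm_nonneg (T (a k)), norm_nonneg (T (b k))]
  calc ∑ k, ‖T (x k)‖ ^ 2 ≤ ∑ k, 2 * (‖T (a k)‖ ^ 2 + ‖T (b k)‖ ^ 2) :=
        Finset.sum_le_sum fun k _ => hk k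
    _ = 2 * ∑ k, (‖T (a k)‖ ^ 2 + ‖T (b k)‖ ^ 2) := by rw [← Finset.mul_sum]
    _ ≤ 2 * (3 * M ^ 2 * (‖(1 / 2 : ℝ)‖ *
          ‖∑ k, star (x k) * x k + ∑ k, x k * star (x k)‖)) := by gcongr
    _ ≤ 3 * M ^ 2 * (‖∑ k, star (x k) * x k‖ + ‖∑ k, x k * star (x k)‖) := by
        have h2 : ‖(1 / 2 : ℝ)‖ = 1 / 2 := by norm_num
        rw [h2]
        have h3 : 0 ≤ 3 * M ^ 2 := by positivity
        nlinarith [mul_le_mul_of_nonneg_left hn h3]

end H759R2.Kad
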